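import Mathlib

/-!
A linear system depending polynomially on a parameter: if it is solvable for infinitely many
values of the parameter then it is solvable generically.
-/

namespace LA53

open Polynomial

theorem fam {k : Type*} [Field k] {m n : Type*} [Fintype m] [Fintype n]
    (A : Matrix m n k[X]) (b : m → k[X]) (S : Set k) (hS : S.Infinite)
    (h : ∀ c ∈ S, ∃ v : n → k, (A.map (Polynomial.eval c)).mulVec v = fun i => (b i).eval c) :
    ∃ q : k[X], q ≠ 0 ∧ ∃ x : n → k[X], A.mulVec x = fun i => q * b i := by
  classical
  let K := FractionRing k[X]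
  let φ : k[X] →+* K := algebraMap k[X] K
  have hφ : Function.Injective φ := IsFractionRing.injective k[X] K
  let AK : Matrix m n K := A.map φ
  let bK : m → K := fun i => φ (b i)
  by_cases hsol : ∃ x : n → K, AK.mulVec x = bK
  · obtain ⟨x, hx⟩ := hsol
    obtain ⟨d, hd⟩ := IsLocalization.exist_integer_multiples_of_finite
      (nonZeroDivisors k[X]) x
    choose x' hx' using hd
    refine ⟨d, nonZeroDivisors.ne_zero d.2, x', ?_⟩
    funext i
    apply hφ
    have e1 : φ (A.mulVec x' i) = ∑ j, φ (A i j) * φ (x' j) := by
      simp [Matrix.mulVec, dotProduct, map_sum]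
    have e2 : ∀ j, φ (x' j) = φ (d : k[X]) * x j := by
      intro j
      have := hx' j
      rw [Algebra.smul_def] at this
      exact this
    have e3 : (AK.mulVec x) i = bK i := congrFun hx i
    rw [e1, map_mul]
    have e4 : ∑ j, φ (A i j) * φ (x' j) = φ (d : k[X]) * ∑ j, φ (A i j) * x j := by
      rw [Finset.mul_sum]
      apply Finset.sum_congr rfl
      intro j _
      rw [e2 j]
      ring
    rw [e4]
    have e5 : ∑ j, φ (A i j) * x j = φ (b i) := by
      have : (AK.mulVec x) i = ∑ j, φ (A i j) * x j := by
        simp [AK, Matrix.mulVec, dotProduct]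
      rw [← this]
      exact e3
    rw [e5]
  · exfalso
    have hnot : bK ∉ LinearMap.range (Matrix.mulVecLin AK) := by
      rintro ⟨x, hx⟩
      exact hsol ⟨x, hx⟩
    obtain ⟨f, hf1, hf2⟩ := Submodule.exists_dual_map_eq_bot_of_notMem hnot inferInstance
    have hf0 : ∀ x : n → K, f (AK.mulVec x) = 0 := by
      intro x
      have : f (AK.mulVec x) ∈ Submodule.map f (LinearMap.range (Matrix.mulVecLin AK)) :=
        ⟨_, ⟨x, rfl⟩, rfl⟩
      rw [hf2] at this
      exact (Submodule.mem_bot K).mp this
    let y : m → K := fun i => f (Pi.single i 1)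
    have hfy : ∀ z : m → K, f z = ∑ i, z i * y i := by
      intro z
      conv_lhs => rw [← Finset.univ_sum_single z]
      rw [map_sum]
      apply Finset.sum_congr rfl
      intro i _
      have : (Pi.single i (z i) : m → K) = z i • Pi.single i (1 : K) := by
        rw [← Pi.single_smul, smul_eq_mul, mul_one]
      rw [this, map_smul, smul_eq_mul]
    obtain ⟨d, hd⟩ := IsLocalization.exist_integer_multiples_of_finite
      (nonZeroDivisors k[X]) y
    choose y' hy' using hd
    have hd0 : φ (d : k[X]) ≠ 0 := by
      intro h0
      exact nonZeroDivisors.ne_zero d.2 (hφ (by rw [h0, map_zero]))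
    have e2 : ∀ i, φ (y' i) = φ (d : k[X]) * y i := by
      intro i
      have := hy' i
      rw [Algebra.smul_def] at this
      exact this
    -- `y' A = 0`
    have hA : ∀ j, ∑ i, A i j * y' i = 0 := by
      intro j
      apply hφ
      rw [map_sum, map_zero]
      have h1 := hf0 (Pi.single j 1)
      rw [hfy] at h1
      have h2 : ∀ i, AK.mulVec (Pi.single j 1) i = φ (A i j) := by
        intro i
        simp [AK]
      calc ∑ i, φ (A i j * y' i) = φ (d : k[X]) * ∑ i, AK.mulVec (Pi.single j 1) i * y i := by
            rw [Finset.mul_sum]
            apply Finset.sum_congr rfl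
            intro i _
            rw [map_mul, e2 i, h2 i]
            ring
        _ = 0 := by rw [h1, mul_zero]
    -- `p = y' b` is not zero
    obtain ⟨p, hp⟩ : ∃ p : k[X], p = ∑ i, b i * y' i := ⟨_, rfl⟩
    have hp0 : p ≠ 0 := by
      intro h0
      have h1 : φ p = φ (d : k[X]) * f bK := by
        rw [hp, map_sum, hfy, Finset.mul_sum]
        apply Finset.sum_congr rfl
        intro i _
        rw [map_mul, e2 i]
        simp only [bK]
        ring
      rw [h0, map_zero] at h1
      rcases mul_eq_zero.mp h1.symm with h2 | h2
      · exact hd0 h2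
      · exact hf1 h2
    have hsub : S ⊆ {c | p.IsRoot c} := by
      intro c hc
      obtain ⟨v, hv⟩ := h c hc
      have h1 : ∀ i, (b i).eval c = ∑ j, (A i j).eval c * v j := by
        intro i
        have := congrFun hv i
        rw [← this]
        simp [Matrix.mulVec, dotProduct]
      change p.eval c = 0
      rw [hp, eval_finsetSum]
      calc ∑ i, (b i * y' i).eval c = ∑ i, ∑ j, ((A i j).eval c * (y' i).eval c) * v j := by
            apply Finset.sum_congr rfl
            intro i _
            rw [eval_mul, h1 i, Finset.sum_mul]
            apply Finset.sum_congr rfl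
            intro j _
            ring
        _ = ∑ j, ∑ i, ((A i j).eval c * (y' i).eval c) * v j := Finset.sum_comm
        _ = ∑ j, (∑ i, A i j * y' i).eval c * v j := by
            apply Finset.sum_congr rfl
            intro j _
            rw [eval_finsetSum, Finset.sum_mul]
            apply Finset.sum_congr rfl
            intro i _
            rw [eval_mul]
        _ = 0 := by
            apply Finset.sum_eq_zero
            intro j _
            rw [hA j, eval_zero, zero_mul]
    exact hS ((Polynomial.finite_setOfPred_isRoot hp0).subset hsub)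

end LA53
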