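import Mathlib

/-!
Induced modules of a Lie algebra which is the sum of two subalgebras, without a basis of the
enveloping algebra.
-/

namespace LA53.Ind

variable {k L N J : Type*} [Field k] [LieRing L] [LieAlgebra k L] [AddCommGroup N] [Module k N]

/-- the data: `L = T + S`, coordinates `c` on `T` with basis `b`, projection `p` onto `S` -/
structure Dat (k : Type*) {L J : Type*} [Field k] [LieRing L] [LieAlgebra k L]
    (S : LieSubalgebra k L) (b : J → L) where
  c : L →ₗ[k] (J →₀ k)
  p : L →ₗ[k] S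
  dec : ∀ l, Finsupp.linearCombination k b (c l) + (p l : L) = l
  cS : ∀ s : S, c (s : L) = 0
  pb : ∀ i j, p ⁅b i, b j⁆ = 0

/-- prepending a letter -/
noncomputable def con (k N : Type*) {J : Type*} [Field k] [AddCommGroup N] [Module k N] (j : J) :
    (List J →₀ N) →ₗ[k] (List J →₀ N) :=
  Finsupp.lmapDomain N k (List.cons j)

lemma con_single (j : J) (w : List J) (n : N) :
    con k N j (Finsupp.single w n) = Finsupp.single (j :: w) n := by
  rw [con, Finsupp.lmapDomain_apply, Finsupp.mapDomain_single]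

variable {S : LieSubalgebra k L} {b : J → L} (D : Dat k S b)

/-- multiplication by the `T`-part -/
noncomputable def pre (D : Dat k S b) (N : Type*) [AddCommGroup N] [Module k N] :
    L →ₗ[k] ((List J →₀ N) →ₗ[k] (List J →₀ N)) :=
  (Finsupp.linearCombination k (con k N)) ∘ₗ D.c

lemma pre_S (s : S) : pre D N (s : L) = 0 := by
  rw [pre, LinearMap.comp_apply, D.cS, map_zero]

/-- the action of `S` on the words -/
noncomputable def B (D : Dat k S b) (σ : S →ₗ[k] (N →ₗ[k] N)) :
    List J → S → (N →ₗ[k] (List J →₀ N))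
  | [], s => Finsupp.lsingle [] ∘ₗ σ s
  | j :: w, s => con k N j ∘ₗ B D σ w s + pre D N ⁅(s : L), b j⁆ ∘ₗ Finsupp.lsingle w +
      B D σ w (D.p ⁅(s : L), b j⁆)

lemma B_add (σ : S →ₗ[k] (N →ₗ[k] N)) (w : List J) (s s' : S) :
    B D σ w (s + s') = B D σ w s + B D σ w s' := by
  induction w generalizing s s' with
  | nil => simp only [B, map_add, LinearMap.comp_add]
  | cons j w ih =>
    have e : ⁅((s + s' : S) : L), b j⁆ = ⁅(s : L), b j⁆ + ⁅(s' : L), b j⁆ := by
      change ⁅(s : L) + (s' : L), b j⁆ = _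
      rw [add_lie]
    simp only [B]
    rw [e, map_add, map_add, ih, ih, LinearMap.comp_add, LinearMap.add_comp]
    abel

lemma B_smul (σ : S →ₗ[k] (N →ₗ[k] N)) (w : List J) (a : k) (s : S) :
    B D σ w (a • s) = a • B D σ w s := by
  induction w generalizing s with
  | nil => simp only [B, map_smul, LinearMap.comp_smul]
  | cons j w ih =>
    have e : ⁅((a • s : S) : L), b j⁆ = a • ⁅(s : L), b j⁆ := by
      change ⁅a • (s : L), b j⁆ = _
      rw [smul_lie]
    simp only [B]
    rw [e, map_smul, map_smul, ih, ih, LinearMap.comp_smul, LinearMap.smul_comp, smul_add,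
      smul_add]

/-- the action of `S` -/
noncomputable def rS (D : Dat k S b) (σ : S →ₗ[k] (N →ₗ[k] N)) :
    S →ₗ[k] ((List J →₀ N) →ₗ[k] (List J →₀ N)) where
  toFun s := Finsupp.lsum k fun w => B D σ w s
  map_add' s s' := by
    apply Finsupp.lhom_ext
    intro w n
    simp only [Finsupp.lsum_single, LinearMap.add_apply, B_add]
  map_smul' a s := by
    apply Finsupp.lhom_ext
    intro w n
    simp only [Finsupp.lsum_single, LinearMap.smul_apply, B_smul, RingHom.id_apply]

lemma rS_single (σ : S →ₗ[k] (N →ₗ[k] N)) (s : S) (w : List J) (n : N) :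
    rS D σ s (Finsupp.single w n) = B D σ w s n := by
  change (Finsupp.lsum k fun w => B D σ w s) (Finsupp.single w n) = _
  rw [Finsupp.lsum_single]

/-- the action of `L`, before taking the quotient -/
noncomputable def r (D : Dat k S b) (σ : S →ₗ[k] (N →ₗ[k] N)) :
    L →ₗ[k] ((List J →₀ N) →ₗ[k] (List J →₀ N)) :=
  pre D N + rS D σ ∘ₗ D.p

lemma r_apply (σ : S →ₗ[k] (N →ₗ[k] N)) (l : L) (v : List J →₀ N) :
    r D σ l v = pre D N l v + rS D σ (D.p l) v := rfl

lemma p_S (s : S) : D.p (s : L) = s := by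
  have h := D.dec (s : L)
  rw [D.cS, map_zero, zero_add] at h
  exact Subtype.ext h

lemma r_S (σ : S →ₗ[k] (N →ₗ[k] N)) (s : S) (v : List J →₀ N) :
    r D σ (s : L) v = rS D σ s v := by
  rw [r_apply, pre_S, p_S, LinearMap.zero_apply, zero_add]

lemma r_of_p (σ : S →ₗ[k] (N →ₗ[k] N)) {l : L} (hl : D.p l = 0) (v : List J →₀ N) :
    r D σ l v = pre D N l v := by
  rw [r_apply, hl, map_zero, LinearMap.zero_apply, add_zero]

lemma rS_con (σ : S →ₗ[k] (N →ₗ[k] N)) (s : S) (j : J) (v : List J →₀ N) :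
    rS D σ s (con k N j v) = con k N j (rS D σ s v) + r D σ ⁅(s : L), b j⁆ v := by
  have h : rS D σ s ∘ₗ con k N j = con k N j ∘ₗ rS D σ s + r D σ ⁅(s : L), b j⁆ := by
    apply Finsupp.lhom_ext
    intro w n
    rw [LinearMap.comp_apply, con_single, rS_single, LinearMap.add_apply, LinearMap.comp_apply,
      rS_single, r_apply, rS_single]
    simp only [B, LinearMap.add_apply, LinearMap.comp_apply, Finsupp.lsingle_apply, add_assoc]
  exact LinearMap.congr_fun h v

/-- the `T`-part -/
noncomputable def t (D : Dat k S b) (l : L) : L := Finsupp.linearCombination k b (D.c l)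

lemma t_add_p (l : L) : t D l + (D.p l : L) = l := D.dec l

lemma pre_apply (l : L) (v : List J →₀ N) :
    pre D N l v = (D.c l).sum fun j a => a • con k N j v := by
  rw [pre, LinearMap.comp_apply, Finsupp.linearCombination_apply, Finsupp.sum, Finsupp.sum,
    LinearMap.sum_apply]
  rfl

lemma rS_pre (σ : S →ₗ[k] (N →ₗ[k] N)) (s : S) (l : L) (v : List J →₀ N) :
    rS D σ s (pre D N l v) = pre D N l (rS D σ s v) + r D σ ⁅(s : L), t D l⁆ v := by
  rw [pre_apply, pre_apply, t, Finsupp.linearCombination_apply, Finsupp.sum, Finsupp.sum,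
    Finsupp.sum, map_sum, lie_sum, map_sum, LinearMap.sum_apply, ← Finset.sum_add_distrib]
  apply Finset.sum_congr rfl
  intro j _
  rw [map_smul, rS_con, lie_smul, map_smul, LinearMap.smul_apply, smul_add]

/-- the relation `[ρ s, ρ s'] = ρ [s, s']` on words -/
lemma rS_lie (σ : S →ₗ[k] (N →ₗ[k] N))
    (hσ : ∀ (s s' : S) (n : N), σ ⁅s, s'⁆ n = σ s (σ s' n) - σ s' (σ s n)) (s s' : S)
    (v : List J →₀ N) :
    rS D σ s (rS D σ s' v) - rS D σ s' (rS D σ s v) = rS D σ ⁅s, s'⁆ v := by
  have key : ∀ (w : List J) (n : N) (s s' : S),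
      rS D σ s (rS D σ s' (Finsupp.single w n)) - rS D σ s' (rS D σ s (Finsupp.single w n)) =
        rS D σ ⁅s, s'⁆ (Finsupp.single w n) := by
    intro w n
    induction w with
    | nil =>
      intro s s'
      simp only [rS_single, B, LinearMap.comp_apply, Finsupp.lsingle_apply]
      rw [hσ, Finsupp.single_sub]
    | cons j w ih =>
      intro s s'
      rw [← con_single (k := k)]
      set v := Finsupp.single w n with hv
      have h1 : ∀ (s : S) (x : L), rS D σ s (r D σ x v) =
          r D σ x (rS D σ s v) + r D σ ⁅(s : L), x⁆ v := by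
        intro s x
        have e1 := ih s (D.p x)
        have e2 : r D σ ⁅(s : L), x⁆ v = r D σ ⁅(s : L), t D x⁆ v + rS D σ ⁅s, D.p x⁆ v := by
          rw [← r_S, ← LinearMap.add_apply, ← map_add, LieSubalgebra.coe_bracket, ← lie_add,
            t_add_p]
        rw [r_apply, r_apply, map_add, rS_pre, e2, ← e1]
        abel
      rw [rS_con, rS_con, map_add, map_add, rS_con, rS_con, h1, h1, rS_con]
      have e3 : r D σ ⁅((⁅s, s'⁆ : S) : L), b j⁆ v =
          r D σ ⁅(s : L), ⁅(s' : L), b j⁆⁆ v - r D σ ⁅(s' : L), ⁅(s : L), b j⁆⁆ v := by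
        rw [← LinearMap.sub_apply, ← map_sub, LieSubalgebra.coe_bracket, lie_lie]
      rw [e3, ← ih s s', map_sub]
      abel
  have h : rS D σ s ∘ₗ rS D σ s' - rS D σ s' ∘ₗ rS D σ s = rS D σ ⁅s, s'⁆ := by
    apply Finsupp.lhom_ext
    intro w n
    exact key w n s s'
  exact LinearMap.congr_fun h v

/-- the relation between two letters -/
noncomputable def K (D : Dat k S b) (i j : J) (v : List J →₀ N) : List J →₀ N :=
  con k N i (con k N j v) - con k N j (con k N i v) - pre D N ⁅b i, b j⁆ v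

/-- the relations -/
inductive Rl (D : Dat k S b) (N : Type*) [AddCommGroup N] [Module k N] : (List J →₀ N) → Prop
  | base (i j : J) (v : List J →₀ N) : Rl D N (K D i j v)
  | step (j : J) (v : List J →₀ N) : Rl D N v → Rl D N (con k N j v)

/-- the span of the relations -/
noncomputable def R (D : Dat k S b) (N : Type*) [AddCommGroup N] [Module k N] : Submodule k (List J →₀ N) :=
  Submodule.span k {v | Rl D N v}

lemma con_mem (j : J) {v : List J →₀ N} (hv : v ∈ R D N) : con k N j v ∈ R D N := by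
  induction hv using Submodule.span_induction with
  | mem x h => exact Submodule.subset_span (Rl.step j x h)
  | zero => rw [map_zero]; exact (R D N).zero_mem
  | add x y _ _ hx hy => rw [map_add]; exact (R D N).add_mem hx hy
  | smul a x _ hx => rw [map_smul]; exact (R D N).smul_mem a hx

lemma pre_mem (l : L) {v : List J →₀ N} (hv : v ∈ R D N) : pre D N l v ∈ R D N := by
  rw [pre_apply]
  exact (R D N).sum_mem fun j _ => (R D N).smul_mem _ (con_mem D j hv)

lemma pre_con (l : L) (j : J) (v : List J →₀ N) :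
    pre D N l (con k N j v) - con k N j (pre D N l v) - pre D N ⁅t D l, b j⁆ v ∈ R D N := by
  have e : pre D N l (con k N j v) - con k N j (pre D N l v) - pre D N ⁅t D l, b j⁆ v =
      (D.c l).sum fun i a => a • K D i j v := by
    rw [pre_apply, pre_apply, t, Finsupp.linearCombination_apply, Finsupp.sum, Finsupp.sum,
      Finsupp.sum, Finsupp.sum, map_sum, sum_lie, map_sum, LinearMap.sum_apply,
      ← Finset.sum_sub_distrib, ← Finset.sum_sub_distrib]
    apply Finset.sum_congr rfl
    intro i _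
    rw [map_smul, smul_lie, map_smul, LinearMap.smul_apply, K, smul_sub, smul_sub]
  rw [e]
  exact (R D N).sum_mem fun i _ => (R D N).smul_mem _
    (Submodule.subset_span (Rl.base i j v))

lemma p_t_b (l : L) (j : J) : D.p ⁅t D l, b j⁆ = 0 := by
  rw [t, Finsupp.linearCombination_apply, Finsupp.sum, sum_lie, map_sum]
  apply Finset.sum_eq_zero
  intro i _
  rw [smul_lie, map_smul, D.pb, smul_zero]

lemma r_con (σ : S →ₗ[k] (N →ₗ[k] N)) (l : L) (j : J) (v : List J →₀ N) :
    r D σ l (con k N j v) - con k N j (r D σ l v) - r D σ ⁅l, b j⁆ v ∈ R D N := by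
  have h := pre_con D l j v
  have e : r D σ ⁅l, b j⁆ v = pre D N ⁅t D l, b j⁆ v + r D σ ⁅(D.p l : L), b j⁆ v := by
    rw [← r_of_p D σ (p_t_b D l j), ← LinearMap.add_apply, ← map_add, ← add_lie, t_add_p]
  have e2 : r D σ l (con k N j v) - con k N j (r D σ l v) - r D σ ⁅l, b j⁆ v =
      pre D N l (con k N j v) - con k N j (pre D N l v) - pre D N ⁅t D l, b j⁆ v := by
    rw [e, r_apply, r_apply, rS_con, map_add]
    abel
  rw [e2]
  exact h

lemma rS_K (σ : S →ₗ[k] (N →ₗ[k] N)) (s : S) (i j : J) (v : List J →₀ N) :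
    rS D σ s (K D i j v) ∈ R D N := by
  have h1 := r_con D σ ⁅(s : L), b i⁆ j v
  have h2 := r_con D σ ⁅(s : L), b j⁆ i v
  have h3 : K D i j (rS D σ s v) ∈ R D N := Submodule.subset_span (Rl.base i j _)
  have e1 : rS D σ s (pre D N ⁅b i, b j⁆ v) = pre D N ⁅b i, b j⁆ (rS D σ s v) +
      r D σ ⁅(s : L), ⁅b i, b j⁆⁆ v := by
    rw [rS_pre]
    have : t D ⁅b i, b j⁆ = ⁅b i, b j⁆ := by
      have := t_add_p D ⁅b i, b j⁆
      rw [D.pb] at this
      simpa using this
    rw [this]
  have e2 : r D σ ⁅(s : L), ⁅b i, b j⁆⁆ v =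
      r D σ ⁅⁅(s : L), b i⁆, b j⁆ v - r D σ ⁅⁅(s : L), b j⁆, b i⁆ v := by
    rw [← LinearMap.sub_apply, ← map_sub]
    congr 2
    rw [leibniz_lie, ← lie_skew (b i) ⁅(s : L), b j⁆]
    abel
  have e3 : rS D σ s (K D i j v) = K D i j (rS D σ s v) +
      (r D σ ⁅(s : L), b i⁆ (con k N j v) - con k N j (r D σ ⁅(s : L), b i⁆ v) -
        r D σ ⁅⁅(s : L), b i⁆, b j⁆ v) -
      (r D σ ⁅(s : L), b j⁆ (con k N i v) - con k N i (r D σ ⁅(s : L), b j⁆ v) -
        r D σ ⁅⁅(s : L), b j⁆, b i⁆ v) := by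
    rw [K, K, map_sub, map_sub, rS_con, rS_con, rS_con, rS_con, e1, e2, map_add, map_add]
    abel
  rw [e3]
  exact (R D N).sub_mem ((R D N).add_mem h3 h1) h2

lemma rS_mem (σ : S →ₗ[k] (N →ₗ[k] N)) {v : List J →₀ N} (hv : v ∈ R D N) (s : S) :
    rS D σ s v ∈ R D N := by
  have key : ∀ v, Rl D N v → ∀ s, rS D σ s v ∈ R D N := by
    intro v hv
    induction hv with
    | base i j v => exact fun s => rS_K D σ s i j v
    | step j v h ih =>
      intro s
      have hvR : v ∈ R D N := Submodule.subset_span h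
      rw [rS_con, r_apply]
      exact (R D N).add_mem (con_mem D j (ih s)) ((R D N).add_mem (pre_mem D _ hvR) (ih _))
  induction hv using Submodule.span_induction with
  | mem x h => exact key x h s
  | zero => rw [map_zero]; exact (R D N).zero_mem
  | add x y _ _ hx hy => rw [map_add]; exact (R D N).add_mem hx hy
  | smul a x _ hx => rw [map_smul]; exact (R D N).smul_mem a hx

lemma r_mem (σ : S →ₗ[k] (N →ₗ[k] N)) {v : List J →₀ N} (hv : v ∈ R D N) (l : L) :
    r D σ l v ∈ R D N := by
  rw [r_apply]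
  exact (R D N).add_mem (pre_mem D l hv) (rS_mem D σ hv _)

lemma pre_pre (l l' : L) (v : List J →₀ N) :
    pre D N l (pre D N l' v) - pre D N l' (pre D N l v) - pre D N ⁅t D l, t D l'⁆ v ∈
      R D N := by
  have e : pre D N l (pre D N l' v) - pre D N l' (pre D N l v) - pre D N ⁅t D l, t D l'⁆ v =
      (D.c l').sum fun j a => a • (pre D N l (con k N j v) - con k N j (pre D N l v) -
        pre D N ⁅t D l, b j⁆ v) := by
    have e1 : pre D N ⁅t D l, t D l'⁆ v = (D.c l').sum fun j a => a • pre D N ⁅t D l, b j⁆ v := by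
      rw [show t D l' = Finsupp.linearCombination k b (D.c l') from rfl,
        Finsupp.linearCombination_apply, Finsupp.sum, Finsupp.sum, lie_sum, map_sum,
        LinearMap.sum_apply]
      apply Finset.sum_congr rfl
      intro j _
      rw [lie_smul, map_smul, LinearMap.smul_apply]
    rw [pre_apply D l' v, pre_apply D l' (pre D N l v), e1, Finsupp.sum, Finsupp.sum,
      Finsupp.sum, Finsupp.sum, map_sum, ← Finset.sum_sub_distrib, ← Finset.sum_sub_distrib]
    apply Finset.sum_congr rfl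
    intro j _
    rw [map_smul, smul_sub, smul_sub]
  rw [e]
  exact (R D N).sum_mem fun j _ => (R D N).smul_mem _ (pre_con D l j v)

lemma p_t_t (l l' : L) : D.p ⁅t D l, t D l'⁆ = 0 := by
  rw [show t D l' = Finsupp.linearCombination k b (D.c l') from rfl,
    Finsupp.linearCombination_apply, Finsupp.sum, lie_sum, map_sum]
  apply Finset.sum_eq_zero
  intro i _
  rw [lie_smul, map_smul, p_t_b, smul_zero]

lemma r_lie (σ : S →ₗ[k] (N →ₗ[k] N))
    (hσ : ∀ (s s' : S) (n : N), σ ⁅s, s'⁆ n = σ s (σ s' n) - σ s' (σ s n)) (l l' : L)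
    (v : List J →₀ N) :
    r D σ l (r D σ l' v) - r D σ l' (r D σ l v) - r D σ ⁅l, l'⁆ v ∈ R D N := by
  have h := pre_pre D l l' v
  have e : r D σ ⁅l, l'⁆ v = pre D N ⁅t D l, t D l'⁆ v + r D σ ⁅(D.p l : L), t D l'⁆ v -
      r D σ ⁅(D.p l' : L), t D l⁆ v + rS D σ ⁅D.p l, D.p l'⁆ v := by
    rw [← r_of_p D σ (p_t_t D l l'), ← r_S, ← LinearMap.add_apply, ← map_add,
      ← LinearMap.sub_apply, ← map_sub, ← LinearMap.add_apply, ← map_add]
    congr 2
    rw [LieSubalgebra.coe_bracket]
    conv_lhs => rw [← t_add_p D l, ← t_add_p D l']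
    rw [add_lie, lie_add, lie_add, ← lie_skew (D.p l' : L) (t D l)]
    abel
  have e2 : r D σ l (r D σ l' v) - r D σ l' (r D σ l v) - r D σ ⁅l, l'⁆ v =
      pre D N l (pre D N l' v) - pre D N l' (pre D N l v) - pre D N ⁅t D l, t D l'⁆ v := by
    rw [e, ← rS_lie D σ hσ, r_apply D σ l, r_apply D σ l, r_apply D σ l', r_apply D σ l',
      map_add, map_add, map_add, map_add, rS_pre, rS_pre]
    abel
  rw [e2]
  exact h

end LA53.Ind
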