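import Pool.Agent.PRI65.Max

/-!
Restriction and maximal two-sided ideals.
-/

namespace LA53

open Pool.WittPrimes PRI65

/-- a proper two-sided ideal lies in the annihilator of a simple module -/
lemma exists_annI {A : Type*} [Ring A] (I : TwoSidedIdeal A) (hI : I ≠ ⊤) :
    ∃ N : Ideal A, N.IsMaximal ∧ I ≤ annI N := by
  have h : Ideal.span {x | x ∈ I} ≠ ⊤ := by
    intro h
    apply hI
    have hle : ∀ x ∈ Ideal.span {x | x ∈ I}, x ∈ I := by
      intro x hx
      induction hx using Submodule.span_induction with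
      | mem x h => exact h
      | zero => exact I.zero_mem
      | add x y _ _ hx hy => exact I.add_mem hx hy
      | smul a x _ hx => exact I.mul_mem_left a x hx
    have h1 : (1 : A) ∈ I := hle 1 (by rw [h]; trivial)
    rw [eq_top_iff]
    intro x _
    have := I.mul_mem_left x 1 h1
    rwa [mul_one] at this
  obtain ⟨N, hN, hle⟩ := Ideal.exists_le_maximal _ h
  refine ⟨N, hN, fun a ha => (mem_annI N a).mpr fun x => hle (Ideal.subset_span ?_)⟩
  exact I.mul_mem_right a x ha

variable {k L : Type*} [Field k] [CharZero k] [LieRing L] [LieAlgebra k L]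

/-- Let `P` be a prime ideal of `U(W)`. Then `P` is a maximal two-sided ideal iff its restriction
is, and in that case both are annihilators of simple modules. -/
theorem coatom (D : WittData k L) (S : LieSubalgebra k L)
    (hS : S.toSubmodule = Submodule.span k (D.b '' {n | -1 ≤ n}))
    (P : TwoSidedIdeal (UniversalEnvelopingAlgebra k L)) (hP : IsPrimeI P) :
    (IsCoatom P ↔ IsCoatom (P.comap (iotaU S))) ∧
      (IsCoatom P → ∀ M : Ideal (UniversalEnvelopingAlgebra k S), M.IsMaximal →
        (∀ a ∈ P.comap (iotaU S), a ∈ M) → ∀ a, a ∈ P.comap (iotaU S) ↔ ∀ x, a * x ∈ M) := by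
  obtain ⟨-, hbij, hrefl⟩ := main D S hS
  have hQ : IsPrimeI (P.comap (iotaU S)) := hbij.mapsTo hP
  -- a prime ideal of `U(S)` containing `r(P)` is `r(P)` if `P` is maximal
  have h1 : IsCoatom P → ∀ Q' : TwoSidedIdeal (UniversalEnvelopingAlgebra k S), IsPrimeI Q' →
      P.comap (iotaU S) ≤ Q' → Q' = P.comap (iotaU S) := by
    intro hc Q' hQ' hle
    obtain ⟨P', hP', rfl⟩ := hbij.surjOn hQ'
    have h2 : P ≤ P' := hrefl P P' hP hP' hle
    rcases eq_or_lt_of_le h2 with h3 | h3
    · rw [h3]
    · exact absurd (hc.2 P' h3) hP'.1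
  refine ⟨⟨fun hc => ⟨hQ.1, fun I hI => ?_⟩, fun hc => ⟨hP.1, fun I hI => ?_⟩⟩, ?_⟩
  · by_contra hne
    obtain ⟨N, hN, hle⟩ := exists_annI I hne
    have h2 := h1 hc (annI N) (annI_prime N hN) (hI.le.trans hle)
    exact absurd (lt_of_lt_of_le hI hle) (by rw [h2]; exact lt_irrefl _)
  · by_contra hne
    obtain ⟨N, hN, hle⟩ := exists_annI I hne
    have hN' := annI_prime N hN
    have hPN : P ≤ annI N := hI.le.trans hle
    have h2 : P.comap (iotaU S) ≤ (annI N).comap (iotaU S) := by
      intro w hw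
      rw [TwoSidedIdeal.mem_comap] at hw ⊢
      exact hPN hw
    have h3 : P.comap (iotaU S) = (annI N).comap (iotaU S) := by
      rcases eq_or_lt_of_le h2 with h | h
      · exact h
      · exact absurd (hc.2 _ h) (hbij.mapsTo hN').1
    have h4 : P = annI N := hbij.injOn hP hN' h3
    exact absurd (lt_of_lt_of_le hI hle) (by rw [← h4]; exact lt_irrefl _)
  · intro hc M hM hle a
    have h2 := h1 hc (annI M) (annI_prime M hM) (fun a ha => (mem_annI M a).mpr fun x =>
      hle _ (TwoSidedIdeal.mul_mem_right _ _ _ ha))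
    rw [← h2, mem_annI]

end LA53
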