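import Pool.Agent.LA53.Ind
import Pool.Agent.WittPrimes.Theta

/-!
A proper left ideal of the enveloping algebra of the positive part of the Witt algebra generates a
proper left ideal of the enveloping algebra of the Witt algebra.
-/

namespace LA53

open Pool.WittPrimes LA53.Ind

attribute [local instance 100] LieRing.ofAssociativeRing

variable {k L : Type*} [Field k] [LieRing L] [LieAlgebra k L]

/-- `e_{-2}, e_{-3}, ...` -/
noncomputable def bb (D : WittData k L) (j : ℕ) : L := D.b (-(j : ℤ) - 2)

/-- coordinates on the span of `e_{-2}, e_{-3}, ...` -/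
noncomputable def cc (D : WittData k L) : L →ₗ[k] (ℕ →₀ k) :=
  D.b.constr k fun n => if n ≤ -2 then Finsupp.single ((-n - 2).toNat) (1 : k) else 0

lemma mem_S (D : WittData k L) (S : LieSubalgebra k L)
    (hS : S.toSubmodule = Submodule.span k (D.b '' {n | -1 ≤ n})) {n : ℤ} (hn : -1 ≤ n) :
    D.b n ∈ S := by
  have : D.b n ∈ S.toSubmodule := by
    rw [hS]
    exact Submodule.subset_span ⟨n, hn, rfl⟩
  exact this

/-- the projection onto the positive part -/
noncomputable def pp (D : WittData k L) (S : LieSubalgebra k L)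
    (hS : S.toSubmodule = Submodule.span k (D.b '' {n | -1 ≤ n})) : L →ₗ[k] S :=
  D.b.constr k fun n => if h : -1 ≤ n then (⟨D.b n, mem_S D S hS h⟩ : S) else 0

lemma cc_b (D : WittData k L) (n : ℤ) : cc D (D.b n) =
    if n ≤ -2 then Finsupp.single ((-n - 2).toNat) (1 : k) else 0 := by
  rw [cc, Module.Basis.constr_basis]

lemma pp_b (D : WittData k L) (S : LieSubalgebra k L)
    (hS : S.toSubmodule = Submodule.span k (D.b '' {n | -1 ≤ n})) (n : ℤ) :
    pp D S hS (D.b n) = if h : -1 ≤ n then (⟨D.b n, mem_S D S hS h⟩ : S) else 0 := by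
  rw [pp, Module.Basis.constr_basis]

/-- the decomposition of the Witt algebra -/
noncomputable def dat (D : WittData k L) (S : LieSubalgebra k L)
    (hS : S.toSubmodule = Submodule.span k (D.b '' {n | -1 ≤ n})) : Dat k S (bb D) where
  c := cc D
  p := pp D S hS
  dec := by
    intro l
    have h : (Finsupp.linearCombination k (bb D)) ∘ₗ cc D +
        S.toSubmodule.subtype ∘ₗ pp D S hS = LinearMap.id := by
      apply D.b.ext
      intro n
      rw [LinearMap.add_apply, LinearMap.comp_apply, LinearMap.comp_apply, cc_b, pp_b,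
        LinearMap.id_apply]
      by_cases hn : -1 ≤ n
      · rw [if_neg (by omega), dif_pos hn, map_zero, zero_add]
        rfl
      · rw [if_pos (by omega), dif_neg hn, map_zero, add_zero,
          Finsupp.linearCombination_single, one_smul, bb]
        congr 1
        omega
    exact LinearMap.congr_fun h l
  cS := by
    intro s
    have hs : (s : L) ∈ Submodule.span k (D.b '' {n | -1 ≤ n}) := by
      rw [← hS]
      exact s.2
    have key : ∀ x ∈ Submodule.span k (D.b '' {n | -1 ≤ n}), cc D x = 0 := by
      intro x hx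
      induction hx using Submodule.span_induction with
      | mem x h =>
        obtain ⟨n, hn, rfl⟩ := h
        have hn' : -1 ≤ n := hn
        rw [cc_b, if_neg (by omega)]
      | zero => rw [map_zero]
      | add x y _ _ hx hy => rw [map_add, hx, hy, add_zero]
      | smul a x _ hx => rw [map_smul, hx, smul_zero]
    exact key _ hs
  pb := by
    intro i j
    rw [bb, bb, D.brk, map_smul, pp_b, dif_neg (by omega), smul_zero]

section general

variable {J N : Type*} [AddCommGroup N] [Module k N] {S : LieSubalgebra k L} {b : J → L}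
  (D : Dat k S b) (σ : S →ₗ[k] (N →ₗ[k] N))
  (hσ : ∀ (s s' : S) (n : N), σ ⁅s, s'⁆ n = σ s (σ s' n) - σ s' (σ s n))

/-- the induced representation -/
noncomputable def rho : L →ₗ⁅k⁆ Module.End k ((List J →₀ N) ⧸ R D N) where
  toFun l := (R D N).mapQ (R D N) (r D σ l) (fun _ hv => r_mem D σ hv l)
  map_add' l l' := by
    apply LinearMap.ext
    intro x
    obtain ⟨v, rfl⟩ := Submodule.Quotient.mk_surjective _ x
    change (Submodule.Quotient.mk (r D σ (l + l') v) : _ ⧸ R D N) =
      Submodule.Quotient.mk (r D σ l v) + Submodule.Quotient.mk (r D σ l' v)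
    rw [map_add, LinearMap.add_apply, Submodule.Quotient.mk_add]
  map_smul' a l := by
    apply LinearMap.ext
    intro x
    obtain ⟨v, rfl⟩ := Submodule.Quotient.mk_surjective _ x
    change (Submodule.Quotient.mk (r D σ (a • l) v) : _ ⧸ R D N) =
      a • Submodule.Quotient.mk (r D σ l v)
    rw [map_smul, LinearMap.smul_apply, Submodule.Quotient.mk_smul]
  map_lie' := by
    intro l l'
    apply LinearMap.ext
    intro x
    obtain ⟨v, rfl⟩ := Submodule.Quotient.mk_surjective _ x
    have h := r_lie D σ hσ l l' v
    rw [← Submodule.Quotient.mk_eq_zero, Submodule.Quotient.mk_sub, Submodule.Quotient.mk_sub,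
      sub_eq_zero] at h
    exact h.symm

lemma rho_mk (l : L) (v : List J →₀ N) :
    rho D σ hσ l (Submodule.Quotient.mk v) = Submodule.Quotient.mk (r D σ l v) := rfl

lemma con_nil (j : J) (v : List J →₀ N) : con k N j v [] = 0 := by
  rw [con, Finsupp.lmapDomain_apply]
  apply Finsupp.mapDomain_of_notMem_range
  rintro ⟨w, hw⟩
  exact absurd hw (List.cons_ne_nil _ _)

lemma R_nil {v : List J →₀ N} (hv : v ∈ R D N) : v [] = 0 := by
  induction hv using Submodule.span_induction with
  | mem x h =>
    cases h with
    | base i j v =>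
      rw [K, pre_apply, Finsupp.sub_apply, Finsupp.sub_apply, con_nil, con_nil, sub_zero,
        zero_sub, neg_eq_zero, Finsupp.sum, Finsupp.finsetSum_apply]
      apply Finset.sum_eq_zero
      intro j _
      rw [Finsupp.smul_apply, con_nil, smul_zero]
    | step j v _ => exact con_nil j v
  | zero => rfl
  | add x y _ _ hx hy => rw [Finsupp.add_apply, hx, hy, add_zero]
  | smul a x _ hx => rw [Finsupp.smul_apply, hx, smul_zero]

end general

/-- **Main result.** -/
theorem proper (D : WittData k L) (S : LieSubalgebra k L)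
    (hS : S.toSubmodule = Submodule.span k (D.b '' {n | -1 ≤ n}))
    (M : Ideal (UniversalEnvelopingAlgebra k S)) (hM : (1 : UniversalEnvelopingAlgebra k S) ∉ M) :
    (1 : UniversalEnvelopingAlgebra k L) ∉
      Ideal.span (iotaU S '' (M : Set (UniversalEnvelopingAlgebra k S))) := by
  intro h1
  let N := UniversalEnvelopingAlgebra k S ⧸ M
  let σ : S →ₗ[k] (N →ₗ[k] N) := (Algebra.lsmul k k N).toLinearMap ∘ₗ
    ((UniversalEnvelopingAlgebra.ι k : S →ₗ⁅k⁆ UniversalEnvelopingAlgebra k S) :
      S →ₗ[k] UniversalEnvelopingAlgebra k S)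
  have hσa : ∀ (s : S) (n : N), σ s n = UniversalEnvelopingAlgebra.ι k s • n := fun s n => rfl
  have hσ : ∀ (s s' : S) (n : N), σ ⁅s, s'⁆ n = σ s (σ s' n) - σ s' (σ s n) := by
    intro s s' n
    rw [hσa, hσa, hσa, hσa, hσa, LieHom.map_lie, LieRing.of_associative_ring_bracket, sub_smul,
      mul_smul, mul_smul]
  let Dt := dat D S hS
  let Φ : UniversalEnvelopingAlgebra k L →ₐ[k] Module.End k ((List ℕ →₀ N) ⧸ R Dt N) :=
    UniversalEnvelopingAlgebra.lift k (rho Dt σ hσ)
  have hΦ : ∀ l : L, Φ (UniversalEnvelopingAlgebra.ι k l) = rho Dt σ hσ l := fun l =>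
    UniversalEnvelopingAlgebra.lift_ι_apply k _ l
  have key : ∀ w : UniversalEnvelopingAlgebra k S, ∀ n : N,
      Φ (iotaU S w) (Submodule.Quotient.mk (Finsupp.single [] n)) =
        Submodule.Quotient.mk (Finsupp.single [] (w • n)) := by
    let T : Subalgebra k (UniversalEnvelopingAlgebra k S) :=
      { carrier := {w | ∀ n : N,
          Φ (iotaU S w) (Submodule.Quotient.mk (Finsupp.single [] n)) =
            Submodule.Quotient.mk (Finsupp.single [] (w • n))}
        mul_mem' := by
          intro x y hx hy n
          rw [map_mul, map_mul, Module.End.mul_apply, hy n, hx, mul_smul]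
        add_mem' := by
          intro x y hx hy n
          rw [map_add, map_add, LinearMap.add_apply, hx n, hy n, add_smul, Finsupp.single_add,
            Submodule.Quotient.mk_add]
        algebraMap_mem' := by
          intro a n
          rw [AlgHom.commutes, AlgHom.commutes, Module.algebraMap_end_apply, algebraMap_smul,
            ← Submodule.Quotient.mk_smul, Finsupp.smul_single] }
    intro w
    apply UEA_induction T _ w
    intro s n
    rw [iotaU_ι, hΦ, rho_mk, r_S, rS_single]
    rfl
  have hker : ∀ x ∈ Ideal.span (iotaU S '' (M : Set (UniversalEnvelopingAlgebra k S))),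
      Φ x (Submodule.Quotient.mk (Finsupp.single [] (Submodule.Quotient.mk 1 : N))) = 0 := by
    intro x hx
    induction hx using Submodule.span_induction with
    | mem x h =>
      obtain ⟨w, hw, rfl⟩ := h
      rw [key, ← Submodule.Quotient.mk_smul, smul_eq_mul, mul_one,
        (Submodule.Quotient.mk_eq_zero M).mpr hw, Finsupp.single_zero, Submodule.Quotient.mk_zero]
    | zero => rw [map_zero, LinearMap.zero_apply]
    | add x y _ _ hx hy => rw [map_add, LinearMap.add_apply, hx, hy, add_zero]
    | smul a x _ hx => rw [smul_eq_mul, map_mul, Module.End.mul_apply, hx, map_zero]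
  have h2 := hker 1 h1
  rw [map_one, Module.End.one_apply, Submodule.Quotient.mk_eq_zero] at h2
  have h3 := R_nil Dt h2
  rw [Finsupp.single_eq_same, Submodule.Quotient.mk_eq_zero] at h3
  exact hM h3

end LA53
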