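import Pool.Agent.LA53.Fam

/-!
The generic relation: finitely many relations with a parameter, valid for infinitely many values
of the parameter, give a relation between polynomials.
-/

namespace LA53

open Polynomial

lemma detect {k V : Type*} [Field k] [AddCommGroup V] [Module k V] (P E : Submodule k V)
    [FiniteDimensional k E] :
    ∃ (r : ℕ) (f : Fin r → V →ₗ[k] k), (∀ i, ∀ x ∈ P, f i x = 0) ∧
      ∀ x ∈ E, (∀ i, f i x = 0) → x ∈ P := by
  let W : Submodule k (V ⧸ P) := E.map P.mkQ
  have : FiniteDimensional k W := by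
    change FiniteDimensional k (E.map P.mkQ)
    infer_instance
  let bs := Module.finBasis k W
  have hext : ∀ i, ∃ g : (V ⧸ P) →ₗ[k] k, g ∘ₗ W.subtype = bs.coord i := fun i =>
    LinearMap.exists_extend (bs.coord i)
  choose g hg using hext
  refine ⟨Module.finrank k W, fun i => (g i) ∘ₗ P.mkQ, ?_, ?_⟩
  · intro i x hx
    have : P.mkQ x = 0 := by
      rw [Submodule.mkQ_apply, Submodule.Quotient.mk_eq_zero]
      exact hx
    rw [LinearMap.comp_apply, this, map_zero]
  · intro x hx h0
    have hxW : P.mkQ x ∈ W := ⟨x, hx, rfl⟩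
    have h1 : (⟨P.mkQ x, hxW⟩ : W) = 0 := by
      apply bs.ext_elem
      intro i
      have h2 := h0 i
      have h3 := LinearMap.congr_fun (hg i) ⟨P.mkQ x, hxW⟩
      rw [map_zero, Finsupp.zero_apply]
      change bs.coord i ⟨P.mkQ x, hxW⟩ = 0
      rw [← h3]
      exact h2
    have h4 : P.mkQ x = 0 := congrArg Subtype.val h1
    rw [Submodule.mkQ_apply, Submodule.Quotient.mk_eq_zero] at h4
    exact h4

/-- the polynomial with coefficients `g (t.coeff n)` -/
noncomputable def G {k B : Type*} [Field k] [Ring B] [Algebra k B] (g : B →ₗ[k] k) (t : B[X]) :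
    k[X] :=
  ∑ l ∈ Finset.range (t.natDegree + 1), monomial l (g (t.coeff l))

lemma coeff_G {k B : Type*} [Field k] [Ring B] [Algebra k B] (g : B →ₗ[k] k) (t : B[X]) (n : ℕ) :
    (G g t).coeff n = g (t.coeff n) := by
  unfold G
  rw [finsetSum_coeff]
  by_cases h : n < t.natDegree + 1
  · rw [Finset.sum_eq_single n]
    · rw [coeff_monomial, if_pos rfl]
    · intro l _ hl
      rw [coeff_monomial, if_neg hl]
    · intro hn
      exact absurd (Finset.mem_range.mpr h) hn
  · have h1 : t.coeff n = 0 := coeff_eq_zero_of_natDegree_lt (by omega)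
    rw [h1, map_zero]
    apply Finset.sum_eq_zero
    intro l hl
    rw [Finset.mem_range] at hl
    rw [coeff_monomial, if_neg (by omega)]

lemma eval_G {k B : Type*} [Field k] [Ring B] [Algebra k B] (g : B →ₗ[k] k) (t : B[X]) (c : k) :
    (G g t).eval c = g (t.sum fun j v => c ^ j • v) := by
  rw [Polynomial.sum_over_range _ (fun n => by rw [smul_zero]), map_sum]
  unfold G
  rw [eval_finsetSum]
  apply Finset.sum_congr rfl
  intro l _
  rw [eval_monomial, map_smul, smul_eq_mul, mul_comm]

theorem rel {k A B I ι : Type*} [Field k] [AddCommGroup A] [Module k A] [Ring B] [Algebra k B]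
    [Fintype ι] [DecidableEq I] (P : Submodule k A) (N : Submodule k B) (κ : ι → I) (b : A)
    (u : ι → A) (τ : ι → B[X]) (C : Set k) (hC : C.Infinite)
    (h : ∀ c ∈ C, ∃ z : ι → k, b - ∑ p, z p • u p ∈ P ∧
      ∀ a : I, (∑ p, if κ p = a then z p • ((τ p).sum fun j v => c ^ j • v) else 0) ∈ N) :
    ∃ q : k[X], q ≠ 0 ∧ ∃ x : ι → k[X],
      (∀ n, q.coeff n • b - ∑ p, (x p).coeff n • u p ∈ P) ∧
      ∀ (a : I) (n : ℕ), (∑ p, if κ p = a then
        ∑ jl ∈ Finset.HasAntidiagonal.antidiagonal n, (x p).coeff jl.1 • (τ p).coeff jl.2 else 0) ∈ N := by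
  classical
  -- the finite dimensional spaces
  let E1 : Submodule k A := Submodule.span k ({b} ∪ Set.range u)
  have : FiniteDimensional k E1 :=
    FiniteDimensional.span_of_finite k ((Set.finite_singleton b).union (Set.finite_range u))
  have hb1 : b ∈ E1 := Submodule.subset_span (Or.inl rfl)
  have hu1 : ∀ p, u p ∈ E1 := fun p => Submodule.subset_span (Or.inr ⟨p, rfl⟩)
  let E2 : Submodule k B := Submodule.span k
    (⋃ p : ι, (fun l => (τ p).coeff l) '' (Finset.range ((τ p).natDegree + 1) : Set ℕ))
  have : FiniteDimensional k E2 := by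
    apply FiniteDimensional.span_of_finite k
    exact Set.finite_iUnion fun p => (Finset.finite_toSet _).image _
  have hτ2 : ∀ p l, (τ p).coeff l ∈ E2 := by
    intro p l
    by_cases hl : l < (τ p).natDegree + 1
    · exact Submodule.subset_span
        (Set.mem_iUnion.mpr ⟨p, ⟨l, by simpa using hl, rfl⟩⟩)
    · rw [coeff_eq_zero_of_natDegree_lt (by omega)]
      exact E2.zero_mem
  obtain ⟨r1, f, hf1, hf2⟩ := detect P E1
  obtain ⟨r2, g, hg1, hg2⟩ := detect N E2
  let M : Matrix (Fin r1 ⊕ (ι × Fin r2)) ι k[X] := fun s p =>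
    Sum.elim (fun i => Polynomial.C (f i (u p)))
      (fun x => if κ p = κ x.1 then G (g x.2) (τ p) else 0) s
  let R : (Fin r1 ⊕ (ι × Fin r2)) → k[X] := fun s =>
    Sum.elim (fun i => Polynomial.C (f i b)) (fun _ => 0) s
  obtain ⟨q, hq, x, hx⟩ := fam M R C hC (by
    intro c hc
    obtain ⟨z, hz1, hz2⟩ := h c hc
    refine ⟨z, ?_⟩
    funext s
    rcases s with i | ⟨p0, j⟩
    · have h1 := hf1 i _ hz1
      rw [map_sub, map_sum, sub_eq_zero] at h1
      change ∑ p, (Polynomial.C (f i (u p))).eval c * z p = (Polynomial.C (f i b)).eval c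
      rw [eval_C, h1]
      apply Finset.sum_congr rfl
      intro p _
      rw [eval_C, map_smul, smul_eq_mul, mul_comm]
    · have h1 := hg1 j _ (hz2 (κ p0))
      rw [map_sum] at h1
      change ∑ p, (if κ p = κ p0 then G (g j) (τ p) else 0).eval c * z p =
        (0 : k[X]).eval c
      rw [eval_zero, ← h1]
      apply Finset.sum_congr rfl
      intro p _
      by_cases hp : κ p = κ p0
      · rw [if_pos hp, if_pos hp, eval_G, map_smul, smul_eq_mul, mul_comm]
      · rw [if_neg hp, if_neg hp, eval_zero, zero_mul, map_zero])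
  refine ⟨q, hq, x, ?_, ?_⟩
  · intro n
    apply hf2
    · exact E1.sub_mem (E1.smul_mem _ hb1)
        (E1.sum_mem fun p _ => E1.smul_mem _ (hu1 p))
    · intro i
      have h1 : ∑ p, Polynomial.C (f i (u p)) * x p = q * Polynomial.C (f i b) :=
        congrFun hx (Sum.inl i)
      have h2 := congrArg (fun s : k[X] => s.coeff n) h1
      simp only [finsetSum_coeff, coeff_C_mul, coeff_mul_C] at h2
      rw [map_sub, map_sum, map_smul, smul_eq_mul, ← h2, sub_eq_zero]
      apply Finset.sum_congr rfl
      intro p _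
      rw [map_smul, smul_eq_mul, mul_comm]
  · intro a n
    by_cases ha : ∃ p0, κ p0 = a
    · obtain ⟨p0, rfl⟩ := ha
      apply hg2
      · apply E2.sum_mem
        intro p _
        by_cases hp : κ p = κ p0
        · rw [if_pos hp]
          exact E2.sum_mem fun jl _ => E2.smul_mem _ (hτ2 p _)
        · rw [if_neg hp]
          exact E2.zero_mem
      · intro j
        have h1 : ∑ p, (if κ p = κ p0 then G (g j) (τ p) else 0) * x p = q * 0 :=
          congrFun hx (Sum.inr (p0, j))
        rw [mul_zero] at h1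
        have h2 := congrArg (fun s : k[X] => s.coeff n) h1
        simp only [finsetSum_coeff, coeff_zero] at h2
        rw [map_sum, ← h2]
        apply Finset.sum_congr rfl
        intro p _
        by_cases hp : κ p = κ p0
        · rw [if_pos hp, if_pos hp, mul_comm, coeff_mul, map_sum]
          apply Finset.sum_congr rfl
          intro jl _
          rw [map_smul, smul_eq_mul, coeff_G]
        · rw [if_neg hp, if_neg hp, zero_mul, coeff_zero, map_zero]
    · have : (∑ p, if κ p = a then
          ∑ jl ∈ Finset.HasAntidiagonal.antidiagonal n, (x p).coeff jl.1 • (τ p).coeff jl.2 else 0) = 0 := by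
        apply Finset.sum_eq_zero
        intro p _
        rw [if_neg fun hp => ha ⟨p, hp⟩]
      rw [this]
      exact N.zero_mem

end LA53
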