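import Mathlib

set_option autoImplicit false

/-!
# Finitely many linear forms that cut out a subspace on a finitely generated subspace
-/

namespace Pool.Agent.LA53

/-- finitely many forms that vanish on `P` and cut out `P` on the span of a finite set -/
theorem sep {k V : Type*} [Field k] [AddCommGroup V] [Module k V] (P : Submodule k V)
    (s : Set V) (hs : s.Finite) :
    ∃ (m : ℕ) (f : Fin m → V →ₗ[k] k), (∀ y ∈ P, ∀ i, f i y = 0) ∧
      ∀ y ∈ Submodule.span k s, (∀ i, f i y = 0) → y ∈ P := by
  classical
  obtain ⟨E, hE⟩ : ∃ E : Submodule k (V ⧸ P), E = (Submodule.span k s).map P.mkQ := ⟨_, rfl⟩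
  have hfin : FiniteDimensional k E := by
    rw [hE, Submodule.map_span]
    exact FiniteDimensional.span_of_finite k (hs.image _)
  let b := Module.finBasis k E
  have hext : ∀ i, ∃ g : (V ⧸ P) →ₗ[k] k, g ∘ₗ E.subtype = b.coord i := fun i =>
    LinearMap.exists_extend (b.coord i)
  choose g hg using hext
  refine ⟨Module.finrank k E, fun i => g i ∘ₗ P.mkQ, fun y hy i => ?_, fun y hy h => ?_⟩
  · rw [LinearMap.comp_apply, Submodule.mkQ_apply, (Submodule.Quotient.mk_eq_zero P).2 hy, map_zero]
  · have hyE : P.mkQ y ∈ E := by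
      rw [hE]
      exact Submodule.mem_map_of_mem hy
    have h1 : (⟨P.mkQ y, hyE⟩ : E) = 0 := by
      rw [← b.forall_coord_eq_zero_iff]
      intro i
      rw [← hg i]
      exact h i
    have h2 : P.mkQ y = 0 := congrArg Subtype.val h1
    rwa [Submodule.mkQ_apply, Submodule.Quotient.mk_eq_zero] at h2

end Pool.Agent.LA53
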